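import Pool.Agent.Helper51.PP.Spec

/-!
# PC, part CONG: elementary properties of the averaging operators
-/

set_option autoImplicit false

namespace Pool.Agent.Helper13.PC.CONG

open Pool.Agent.Helper51.PP
open scoped BigOperators

theorem main : S_CONG := by
  intro X E _ _ nx S hS
  have hc : (0 : ℝ) ≤ (Fintype.card E : ℝ)⁻¹ := by positivity
  have hmono : ∀ (f g : X → ℝ), (∀ x ∈ S, f x ≤ g x) → ∀ n, ∀ x ∈ S,
      PRn nx f n x ≤ PRn nx g n x := by
    intro f g hfg n
    induction n with
    | zero => intro x hx; simpa [PRn] using hfg x hx
    | succ n ih =>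
      intro x hx
      simp only [PRn, PR]
      exact mul_le_mul_of_nonneg_left
        (Finset.sum_le_sum fun e _ => ih (nx x e) (hS x hx e)) hc
  refine ⟨hmono, ?_, ?_, ?_, ?_⟩
  · intro f g hfg n x hx
    exact le_antisymm (hmono f g (fun y hy => (hfg y hy).le) n x hx)
      (hmono g f (fun y hy => (hfg y hy).ge) n x hx)
  · intro f g a b n
    induction n with
    | zero => intro x; simp [PRn]
    | succ n ih =>
      intro x
      simp only [PRn, PR]
      simp only [ih]
      rw [Finset.sum_add_distrib, ← Finset.mul_sum, ← Finset.mul_sum]
      ring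
  · intro a n
    induction n with
    | zero => intro x; simp [PRn]
    | succ n ih =>
      intro x
      simp only [PRn, PR, ih]
      rw [Finset.sum_const, Finset.card_univ, nsmul_eq_mul, ← mul_assoc,
        inv_mul_cancel₀ (by exact_mod_cast Fintype.card_ne_zero), one_mul]
  · intro c c' hcc θ n
    induction n with
    | zero => intro x _; simp [CF]
    | succ n ih =>
      intro x hx
      simp only [CF]
      congr 1
      refine Finset.sum_congr rfl fun e _ => ?_
      rw [ih (nx x e) (hS x hx e), hcc x hx e]

end Pool.Agent.Helper13.PC.CONG
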