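import Pool.Agent.Helper51.PP.Spec

/-!
# PC, part EVF: characteristic functions of `φ(X_n)`; comparison of two functions
-/

set_option autoImplicit false

namespace Pool.Agent.Helper13.PC.EVF

open Pool.Agent.Helper51.PP
open scoped BigOperators

theorem main : S_EVF := by
  intro X E _ _ nx
  refine ⟨?_, ?_⟩
  · intro φ θ n
    induction n with
    | zero => intro x; simp [EV, CF]
    | succ n ih =>
      intro x
      simp only [EV, CF]
      rw [mul_left_comm]
      congr 1
      rw [Finset.mul_sum]
      refine Finset.sum_congr rfl fun e _ => ?_
      rw [ih (nx x e), ← mul_assoc, ← Complex.exp_add]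
      congr 2
      simp only [grad]
      push_cast
      ring
  · intro F F' n
    induction n with
    | zero => intro x; simp [EV, PRn]
    | succ n ih =>
      intro x
      simp only [EV, PRn, PR]
      rw [← mul_sub, ← Finset.sum_sub_distrib, norm_mul]
      have h1 : ‖((Fintype.card E : ℂ))⁻¹‖ = (Fintype.card E : ℝ)⁻¹ := by
        rw [norm_inv, Complex.norm_natCast]
      rw [h1]
      refine mul_le_mul_of_nonneg_left ?_ (by positivity)
      exact (norm_sum_le _ _).trans (Finset.sum_le_sum fun e _ => ih (nx x e))

end Pool.Agent.Helper13.PC.EVF
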