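import Pool.Agent.Helper51.PP.Spec

/-!
# PC, part LEVY: Lévy's continuity theorem, with rational directions and a first moment bound
-/

set_option autoImplicit false

namespace Pool.Agent.Helper13.PC.LEVY

open Pool.Agent.Helper51.PP
open MeasureTheory ProbabilityTheory Filter Topology
open scoped BigOperators

variable {d : ℕ}

/-- the quadratic form -/
noncomputable def qf (D : Matrix (Fin d) (Fin d) ℝ) (s : Fin d → ℝ) : ℝ :=
  ∑ i, ∑ j, s i * D i j * s j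

/-- the exponential -/
noncomputable def ef (n : ℕ) (s : Fin d → ℝ) (v : Fin d → ℤ) : ℂ :=
  Complex.exp (Complex.I * (((√(n : ℝ))⁻¹ * ∑ i, s i * (v i : ℝ) : ℝ) : ℂ))

theorem ef_sub (n : ℕ) (s s' : Fin d → ℝ) (δ : ℝ) (h : ∀ i, |s i - s' i| ≤ δ)
    (v : Fin d → ℤ) : ‖ef n s v - ef n s' v‖ ≤ (δ * (√(n : ℝ))⁻¹) * N1 v := by
  have h1 : ‖ef n s v - ef n s' v‖ ≤
      |(√(n : ℝ))⁻¹ * ∑ i, s i * (v i : ℝ) - (√(n : ℝ))⁻¹ * ∑ i, s' i * (v i : ℝ)| := by
    unfold ef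
    set a := (√(n : ℝ))⁻¹ * ∑ i, s i * (v i : ℝ)
    set b := (√(n : ℝ))⁻¹ * ∑ i, s' i * (v i : ℝ)
    have e1 : Complex.exp (Complex.I * (a : ℂ)) - Complex.exp (Complex.I * (b : ℂ)) =
        Complex.exp (Complex.I * (b : ℂ)) * (Complex.exp (Complex.I * ((a - b : ℝ) : ℂ)) - 1) := by
      rw [mul_sub, mul_one, ← Complex.exp_add]
      congr 2
      push_cast
      ring
    rw [e1, norm_mul]
    have e2 : ‖Complex.exp (Complex.I * (b : ℂ))‖ = 1 := by
      rw [mul_comm]; exact Complex.norm_exp_ofReal_mul_I b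
    rw [e2, one_mul]
    exact Real.norm_exp_I_mul_ofReal_sub_one_le
  refine h1.trans ?_
  rw [← mul_sub, ← Finset.sum_sub_distrib, abs_mul, abs_of_nonneg (by positivity : (0:ℝ) ≤ (√(n : ℝ))⁻¹)]
  have h2 : |∑ i, (s i * (v i : ℝ) - s' i * (v i : ℝ))| ≤ δ * N1 v := by
    refine (Finset.abs_sum_le_sum_abs _ _).trans ?_
    unfold N1
    rw [Finset.mul_sum]
    refine Finset.sum_le_sum fun i _ => ?_
    rw [← sub_mul, abs_mul]
    exact mul_le_mul_of_nonneg_right (h i) (abs_nonneg _)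
  calc (√(n : ℝ))⁻¹ * |∑ i, (s i * (v i : ℝ) - s' i * (v i : ℝ))|
      ≤ (√(n : ℝ))⁻¹ * (δ * N1 v) := mul_le_mul_of_nonneg_left h2 (by positivity)
    _ = _ := by ring

theorem main (hCHAR : S_CHAR) (hLNK : S_LNK) (hCONG : S_CONG) (hEVF : S_EVF) : S_LEVY := by
  intro d _ D hD ω hω h0 C hC hlim
  refine ProbabilityMeasure.tendsto_iff_tendsto_charFun.2 fun t => ?_
  change Tendsto _ atTop (𝓝 (charFun (multivariateGaussian (0 : EuclideanSpace ℝ (Fin d)) D) t))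
  have hG : charFun (multivariateGaussian (0 : EuclideanSpace ℝ (Fin d)) D) t =
      ((Real.exp (-(qf D (fun i => t i) / 2)) : ℝ) : ℂ) := by
    rw [charFun_multivariateGaussian hD]
    rw [Complex.ofReal_exp]
    congr 1
    rw [inner_zero_right]
    unfold qf
    simp only [dotProduct, Matrix.mulVec, Finset.mul_sum]
    push_cast
    rw [zero_mul, zero_sub]
    congr 2
    refine Finset.sum_congr rfl fun i _ => Finset.sum_congr rfl fun j _ => ?_
    ring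
  rw [hG]
  have hΦ : ∀ (s : Fin d → ℝ) (n : ℕ), EV (nextPt ω) (ef n s) n 0 =
      EV (nxO ω hω) (fun w => ef n s w.1) n ⟨0, h0⟩ := fun s n =>
    (hLNK d ω hω n ⟨0, h0⟩).2 (ef n s)
  -- comparison
  have hcmp : ∀ (s s' : Fin d → ℝ) (δ : ℝ), 0 ≤ δ → (∀ i, |s i - s' i| ≤ δ) → ∀ n : ℕ, 1 ≤ n →
      ‖EV (nextPt ω) (ef n s) n 0 - EV (nextPt ω) (ef n s') n 0‖ ≤ δ * C := by
    intro s s' δ hδ hs n hn
    rw [hΦ, hΦ]
    have hne : Nonempty (Fin d × Bool) := ⟨(0, true)⟩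
    obtain ⟨hmono, -, hlin, -, -⟩ := hCONG (nxO ω hω) Set.univ (fun _ _ _ => Set.mem_univ _)
    refine ((hEVF (nxO ω hω)).2 _ _ n _).trans ?_
    refine (hmono _ (fun y => (δ * (√(n : ℝ))⁻¹) * N1 y.1 + 0 * N1 y.1)
      (fun y _ => by
        have := ef_sub n s s' δ hs y.1
        simpa using this) n _ (Set.mem_univ _)).trans ?_
    rw [hlin, zero_mul, add_zero]
    have hn0 : (0 : ℝ) < √(n : ℝ) := Real.sqrt_pos.2 (by exact_mod_cast hn)
    calc δ * (√(n : ℝ))⁻¹ * PRn (nxO ω hω) (fun v => N1 v.1) n ⟨0, h0⟩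
        ≤ δ * (√(n : ℝ))⁻¹ * (C * √n) :=
          mul_le_mul_of_nonneg_left (hC n hn) (by positivity)
      _ = δ * C := by field_simp
  have hC0 : 0 ≤ C := by
    have h := hcmp 0 0 1 zero_le_one (by simp) 1 le_rfl
    simpa using h
  have hchar : ∀ n : ℕ, charFun ((scaledLaw ω n : ProbabilityMeasure (EuclideanSpace ℝ (Fin d))) :
      Measure (EuclideanSpace ℝ (Fin d))) t = EV (nextPt ω) (ef n (fun i => t i)) n 0 :=
    fun n => hCHAR d ω n t
  simp only [hchar]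
  rw [Metric.tendsto_atTop]
  intro ε hε
  -- continuity of the limit
  have hcont : Continuous fun s : Fin d → ℝ => ((Real.exp (-(qf D s / 2)) : ℝ) : ℂ) := by
    unfold qf
    fun_prop
  obtain ⟨δ1, hδ1, hδ1'⟩ := Metric.continuous_iff.1 hcont (fun i => t i) (ε / 3) (by positivity)
  set δ := min (δ1 / 2) (ε / (3 * (C + 1))) with hδdef
  have hδ : 0 < δ := by positivity
  have hq : ∀ i : Fin d, ∃ q : ℚ, |(q : ℝ) - t i| ≤ δ := by
    intro i
    obtain ⟨q, hq1, hq2⟩ := exists_rat_btwn (show t i - δ < t i + δ by linarith)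
    exact ⟨q, abs_le.2 ⟨by linarith, by linarith⟩⟩
  choose a ha using hq
  have hla := hlim a
  rw [Metric.tendsto_atTop] at hla
  obtain ⟨N, hN⟩ := hla (ε / 3) (by positivity)
  refine ⟨max N 1, fun n hn => ?_⟩
  have hn1 : N ≤ n := le_trans (le_max_left _ _) hn
  have hn2 : 1 ≤ n := le_trans (le_max_right _ _) hn
  have e1 : dist (EV (nextPt ω) (ef n (fun i => t i)) n 0)
      (EV (nextPt ω) (ef n (fun i => (a i : ℝ))) n 0) ≤ ε / 3 := by
    rw [dist_eq_norm]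
    refine (hcmp _ _ δ hδ.le (fun i => by rw [abs_sub_comm]; exact ha i) n hn2).trans ?_
    have h1 : δ * C ≤ ε / (3 * (C + 1)) * (C + 1) :=
      mul_le_mul (min_le_right _ _) (by linarith) hC0 (by positivity)
    have h2 : ε / (3 * (C + 1)) * (C + 1) = ε / 3 := by field_simp
    linarith
  have e2 : dist (EV (nextPt ω) (ef n (fun i => (a i : ℝ))) n 0)
      ((Real.exp (-(qf D (fun i => (a i : ℝ)) / 2)) : ℝ) : ℂ) < ε / 3 := hN n hn1
  have e3 : dist ((Real.exp (-(qf D (fun i => (a i : ℝ)) / 2)) : ℝ) : ℂ)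
      ((Real.exp (-(qf D (fun i => t i) / 2)) : ℝ) : ℂ) < ε / 3 := by
    apply hδ1'
    rw [dist_pi_lt_iff hδ1]
    intro i
    rw [Real.dist_eq]
    have := ha i
    have h2 : δ ≤ δ1 / 2 := min_le_left _ _
    linarith
  calc _ ≤ _ := dist_triangle4 _ (EV (nextPt ω) (ef n (fun i => (a i : ℝ))) n 0)
        ((Real.exp (-(qf D (fun i => (a i : ℝ)) / 2)) : ℝ) : ℂ) _
    _ < ε / 3 + ε / 3 + ε / 3 := by linarith
    _ = ε := by ring

end Pool.Agent.Helper13.PC.LEVY
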